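import Pool.Agent.H28.Ssp4

namespace Pool.Agent.Results.MP_521f94_lc.Complete

open Pool.Agent.H38.NP Pool.Agent.H28.Ssp

theorem result (G : Type) [Group G] [IsMulCommutative (commutator G)] (xs : List G)
    (hs : Subgroup.closure {x | x ∈ xs} = ⊤) (hv : ¬ Group.IsVirtuallyNilpotent G) :
    InNPOn (Valid xs) (SSP xs) ∧ NPHardOn (Valid xs) (SSP xs) :=
  ⟨ssp_np xs, (ssp_nph xs hs hv).npHardOn⟩

end Pool.Agent.Results.MP_521f94_lc.Complete
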